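import Pool.Agent.helper55.NM.Spec

set_option autoImplicit false

namespace Pool.Agent.helper29.NM

open Pool.Agent.NM Finset Nat

theorem ASY_choose (n k : ℕ) (hk : 1 ≤ k) (hkn : k + 1 ≤ n) :
    n.choose k * (k * (n - k)) = n * ((n - 1) * (n - 2).choose (k - 1)) := by
  obtain ⟨K, rfl⟩ : ∃ K, k = K + 1 := ⟨k - 1, by omega⟩
  obtain ⟨N, rfl⟩ : ∃ N, n = N + 2 := ⟨n - 2, by omega⟩
  have h1 := Nat.add_one_mul_choose_eq (N + 1) K
  have h2 := Nat.choose_mul_succ_eq N K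
  have e1 : N + 2 - (K + 1) = N + 1 - K := by omega
  have e2 : N + 2 - 1 = N + 1 := by omega
  have e3 : N + 2 - 2 = N := by omega
  have e4 : K + 1 - 1 = K := by omega
  rw [e1, e2, e3, e4]
  calc (N + 2).choose (K + 1) * ((K + 1) * (N + 1 - K)) = ((N + 1 + 1).choose (K + 1) * (K + 1)) * (N + 1 - K) := by ring
    _ = (N + 2) * ((N + 1).choose K * (N + 1 - K)) := by
        rw [← h1]
        ring
    _ = (N + 2) * ((N + 1) * N.choose K) := by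
        rw [← h2]
        ring

theorem ASY_real (n k : ℕ) (hk : 1 ≤ k) (hkn : k + 1 ≤ n) :
    2 * ((k : ℝ) / n) * (1 - (k : ℝ) / n) * (n.choose k : ℝ) ≤ 2 * ((n - 2).choose (k - 1) : ℝ) := by
  have h := ASY_choose n k hk hkn
  have hn : (0 : ℝ) < n := by exact_mod_cast (by omega : 0 < n)
  have h' : (n.choose k : ℝ) * ((k : ℝ) * ((n : ℝ) - k)) = n * (((n : ℝ) - 1) * ((n - 2).choose (k - 1) : ℝ)) := by
    have e1 : ((n - k : ℕ) : ℝ) = (n : ℝ) - k := by rw [Nat.cast_sub (by omega)]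
    have e2 : ((n - 1 : ℕ) : ℝ) = (n : ℝ) - 1 := by rw [Nat.cast_sub (by omega), Nat.cast_one]
    rw [← e1, ← e2]
    exact_mod_cast h
  have hc : (0 : ℝ) ≤ ((n - 2).choose (k - 1) : ℝ) := Nat.cast_nonneg _
  have e : 2 * ((k : ℝ) / n) * (1 - (k : ℝ) / n) * (n.choose k : ℝ) =
      2 * ((n.choose k : ℝ) * ((k : ℝ) * ((n : ℝ) - k))) / (n : ℝ) ^ 2 := by
    field_simp
  rw [e, h', div_le_iff₀ (by positivity)]
  nlinarith [mul_nonneg hn.le hc]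

theorem ASY : ASY_stmt := by
  intro ε p hε
  by_cases hε1 : ε ≤ 1 / 12
  swap
  · refine ⟨0, 0, fun q k _ h1 h2 => ?_⟩
    exfalso
    linarith
  obtain ⟨L, hL⟩ := exists_pow_lt_of_lt_one (show 0 < ε / 9 by positivity) (show 1 - 2 * ε < 1 by linarith)
  obtain ⟨T, hT⟩ : ∃ T : ℝ, T = 2 ^ p * ((p + 1 : ℕ) : ℝ) * ((p + L : ℕ) : ℝ) := ⟨_, rfl⟩
  obtain ⟨B, hB⟩ : ∃ B : ℝ, B = 8 * (p : ℝ) ^ 2 + 54 * T + 3 * ((p + L : ℕ) : ℝ) + 3 := ⟨_, rfl⟩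
  refine ⟨L, ⌈B / ε⌉₊, fun q k hn h1 h2 => ?_⟩
  have hnB : B / ε ≤ ((p : ℝ) + q) := by
    have h3 := (Nat.le_ceil (B / ε)).trans (show ((⌈B / ε⌉₊ : ℕ) : ℝ) ≤ ((p + q : ℕ) : ℝ) by exact_mod_cast hn)
    rwa [Nat.cast_add] at h3
  obtain ⟨n, hnd⟩ : ∃ n : ℝ, n = (p : ℝ) + q := ⟨_, rfl⟩
  rw [← hnd] at hnB h1 h2 ⊢
  have hεn : B ≤ ε * n := by
    rw [div_le_iff₀ hε] at hnB
    linarith
  have hT0 : 0 ≤ T := by
    rw [hT]
    positivity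
  have hp0 : (0 : ℝ) ≤ p := Nat.cast_nonneg _
  have hPL : (p : ℝ) ≤ ((p + L : ℕ) : ℝ) := by exact_mod_cast Nat.le_add_right p L
  have hp2 : (0 : ℝ) ≤ (p : ℝ) ^ 2 := sq_nonneg _
  have hn0 : 0 < n := by
    have h3 : 0 < ε * n := by linarith
    exact (mul_pos_iff_of_pos_left hε).1 h3
  have hn12 : 12 * (ε * n) ≤ n := by nlinarith
  have hk1 : (1 / 3 + ε) * n ≤ k := (le_div_iff₀ hn0).1 h1
  have hk2 : (k : ℝ) ≤ (1 / 2 - ε) * n := (div_le_iff₀ hn0).1 h2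
  have hεn0 : 0 ≤ ε * n := by positivity
  have hq : (q : ℝ) = n - p := by linarith
  have c1 : p + L ≤ k := by
    have h3 : ((p + L : ℕ) : ℝ) ≤ k := by linarith
    exact_mod_cast h3
  have c2 : 1 ≤ k := by
    have h3 : ((1 : ℕ) : ℝ) ≤ k := by
      rw [Nat.cast_one]
      linarith
    exact_mod_cast h3
  have c3 : 2 * k ≤ q := by
    have h3 : 2 * (k : ℝ) ≤ q := by linarith
    exact_mod_cast h3
  have c4 : p ^ 2 < p + q := by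
    have h3 : ((p : ℝ) ^ 2) < (p : ℝ) + q := by linarith
    exact_mod_cast h3
  have c5 : (k : ℝ) ≤ (1 - 2 * ε) * ((q : ℝ) - k) := by
    rw [hq]
    have h3 : 0 ≤ (1 - 2 * ε) * (ε * n - p) := mul_nonneg (by linarith) (by linarith)
    have h4 : 0 ≤ (2 - 2 * ε) * ((1 / 2 - ε) * n - k) := mul_nonneg (by linarith) (by linarith)
    nlinarith
  refine ⟨c1, c2, c3, c4, c5, ?_⟩
  have hk0 : (0 : ℝ) < k := by
    have : ((1 : ℕ) : ℝ) ≤ k := by exact_mod_cast c2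
    rw [Nat.cast_one] at this
    linarith
  have hR := ASY_real (p + q) k c2 (by omega)
  rw [Nat.cast_add, ← hnd] at hR
  obtain ⟨ρ, hρ⟩ : ∃ ρ : ℝ, ρ = (k : ℝ) / n := ⟨_, rfl⟩
  rw [← hρ] at h1 h2 hR ⊢
  obtain ⟨g, hg⟩ : ∃ g : ℝ, g = 2 * ρ * (1 - ρ) := ⟨_, rfl⟩
  rw [← hg] at hR ⊢
  have hg49 : 4 / 9 ≤ g := by
    rw [hg]
    nlinarith
  have hη : (p : ℝ) ^ 2 / n ≤ ε / 8 := by
    rw [div_le_iff₀ hn0]
    linarith
  obtain ⟨η, hηd⟩ : ∃ η : ℝ, η = (p : ℝ) ^ 2 / n := ⟨_, rfl⟩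
  rw [← hηd] at hη ⊢
  have hq1 : ((1 - ε) * g + (1 - 2 * ε) ^ L) / (1 - η) ≤ g - ε / 18 := by
    rw [div_le_iff₀ (by linarith)]
    have h3 : 0 ≤ (g - ε / 18) * (ε / 8 - η) := mul_nonneg (by linarith) (by linarith)
    have h4 : 0 ≤ ε * (g - 4 / 9) := mul_nonneg hε.le (by linarith)
    nlinarith
  have hc : ((p + 1 : ℕ) : ℝ) * ((p + L : ℕ) : ℝ) / k * 2 ^ p ≤ ε / 18 := by
    have e1 : ((p + 1 : ℕ) : ℝ) * ((p + L : ℕ) : ℝ) / k * 2 ^ p = T / k := by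
      rw [hT]
      ring
    rw [e1, div_le_iff₀ hk0]
    have h3 : ε * (n / 3) ≤ ε * k := mul_le_mul_of_nonneg_left (by linarith) hε.le
    linarith
  have hD : (q.choose k : ℝ) ≤ ((p + q).choose k : ℝ) := by
    exact_mod_cast Nat.choose_le_choose k (Nat.le_add_left q p)
  have hA0 : (0 : ℝ) ≤ ((p + q).choose k : ℝ) := Nat.cast_nonneg _
  have hD0 : (0 : ℝ) ≤ (q.choose k : ℝ) := Nat.cast_nonneg _
  have t1 := mul_le_mul_of_nonneg_right hq1 hA0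
  have t2 : ((p + 1 : ℕ) : ℝ) * ((p + L : ℕ) : ℝ) / k * (2 ^ p * (q.choose k : ℝ)) ≤ ε / 18 * ((p + q).choose k : ℝ) := by
    rw [← mul_assoc]
    exact mul_le_mul hc hD hD0 (by positivity)
  refine (add_le_add t1 t2).trans ?_
  refine le_trans (le_of_eq ?_) hR
  ring

end Pool.Agent.helper29.NM
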