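import Pool.Agent.helper55.NM.Spec3

set_option autoImplicit false

namespace Pool.Agent.helper29.NM

open Pool.Agent.NM Pool.Agent.helper72.UP Finset Nat

theorem PRA_main {α : Type} [Fintype α] [DecidableEq α] (k V : ℕ) (x : α → ℝ) (hx : ∀ i, x i ≠ 0)
    (F : Finset (Finset α)) (hFk : ∀ s ∈ F, s.Nonempty ∧ s.card ≤ k)
    (hF0 : ∀ s ∈ F, ∑ i ∈ s, x i = 0)
    (hV : ∀ C : Finset (ℕ × ℕ),
      (∀ c ∈ C, 1 ≤ c.1 ∧ 1 ≤ c.2 ∧ c.1 + c.2 ≤ k) →
      Pool.Agent.NK.IsCh C → ∑ c ∈ C, (Fintype.card {i : α // 0 < x i}).choose c.1 *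
        (Fintype.card {i : α // ¬ 0 < x i}).choose c.2 ≤ V) : F.card ≤ V := by
  classical
  let P := {i : α // 0 < x i}
  let Q := {i : α // ¬ 0 < x i}
  let sp : Finset α → Finset P := fun s => s.subtype (fun i => 0 < x i)
  let sq : Finset α → Finset Q := fun s => s.subtype (fun i => ¬ 0 < x i)
  have hneg : ∀ i : Q, x i.1 < 0 := fun i => lt_of_le_of_ne (not_lt.1 i.2) (hx _)
  have hsum : ∀ s : Finset α, ∑ i ∈ s, x i = ∑ i ∈ sp s, x i.1 + ∑ i ∈ sq s, x i.1 := by
    intro s
    have h1 : ∑ i ∈ sp s, x i.1 = ∑ i ∈ s.filter (fun i => 0 < x i), x i :=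
      Finset.sum_subtype_eq_sum_filter (s := s) (f := x) (p := fun i => 0 < x i)
    have h2 : ∑ i ∈ sq s, x i.1 = ∑ i ∈ s.filter (fun i => ¬ 0 < x i), x i :=
      Finset.sum_subtype_eq_sum_filter (s := s) (f := x) (p := fun i => ¬ 0 < x i)
    rw [h1, h2, Finset.sum_filter_add_sum_filter_not]
  have hcard : ∀ s : Finset α, s.card = (sp s).card + (sq s).card := by
    intro s
    have h1 : (sp s).card = (s.filter (fun i => 0 < x i)).card := Finset.card_subtype _ _
    have h2 : (sq s).card = (s.filter (fun i => ¬ 0 < x i)).card := Finset.card_subtype _ _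
    rw [h1, h2, Finset.card_filter_add_card_filter_not]
  let T : Finset α → Finset (Numbering P × Numbering Q) :=
    fun s => Numbering.prefixed (sp s) ×ˢ Numbering.prefixed (sq s)
  -- key: nested pairs are equal
  have nested : ∀ s ∈ F, ∀ t ∈ F, sp s ⊆ sp t → sq t ⊆ sq s → s = t := by
    intro s hs t ht h1 h2
    have e1 : ∑ i ∈ sp s, x i.1 ≤ ∑ i ∈ sp t, x i.1 :=
      Finset.sum_le_sum_of_subset_of_nonneg h1 (fun i _ _ => i.2.le)
    have e2 : ∑ i ∈ sq s, x i.1 ≤ ∑ i ∈ sq t, x i.1 := by
      have : ∑ i ∈ sq t, (-x i.1) ≤ ∑ i ∈ sq s, (-x i.1) :=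
        Finset.sum_le_sum_of_subset_of_nonneg h2 (fun i _ _ => by linarith [hneg i])
      simp only [Finset.sum_neg_distrib] at this
      linarith
    have e3 : ∑ i ∈ sp s, x i.1 + ∑ i ∈ sq s, x i.1 = 0 := by rw [← hsum, hF0 s hs]
    have e4 : ∑ i ∈ sp t, x i.1 + ∑ i ∈ sq t, x i.1 = 0 := by rw [← hsum, hF0 t ht]
    have hp : sp s = sp t := by
      by_contra hne
      have hss : sp s ⊂ sp t := lt_of_le_of_ne h1 hne
      obtain ⟨i, hit, his⟩ := Finset.exists_of_ssubset hss
      have : ∑ i ∈ sp s, x i.1 < ∑ i ∈ sp t, x i.1 :=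
        Finset.sum_lt_sum_of_subset h1 hit his i.2 (fun j _ _ => j.2.le)
      linarith
    have hq : sq s = sq t := by
      by_contra hne
      have hss : sq t ⊂ sq s := lt_of_le_of_ne h2 (Ne.symm hne)
      obtain ⟨i, hit, his⟩ := Finset.exists_of_ssubset hss
      have : ∑ i ∈ sq t, (-x i.1) < ∑ i ∈ sq s, (-x i.1) :=
        Finset.sum_lt_sum_of_subset h2 hit his (by linarith [hneg i])
          (fun j _ _ => by linarith [hneg j])
      simp only [Finset.sum_neg_distrib] at this
      linarith
    ext i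
    by_cases hi : 0 < x i
    · have h3 : (⟨i, hi⟩ : P) ∈ sp s ↔ (⟨i, hi⟩ : P) ∈ sp t := by rw [hp]
      exact Finset.mem_subtype.symm.trans (h3.trans Finset.mem_subtype)
    · have h3 : (⟨i, hi⟩ : Q) ∈ sq s ↔ (⟨i, hi⟩ : Q) ∈ sq t := by rw [hq]
      exact Finset.mem_subtype.symm.trans (h3.trans Finset.mem_subtype)
  have hj : ∀ s ∈ F, 1 ≤ (sp s).card := by
    intro s hs
    rw [Nat.one_le_iff_ne_zero, Finset.card_ne_zero]
    by_contra hne
    rw [Finset.not_nonempty_iff_eq_empty] at hne
    have hcs := hcard s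
    rw [hne, Finset.card_empty] at hcs
    have hs1 : 0 < s.card := Finset.card_pos.2 (hFk s hs).1
    have hqne : (sq s).Nonempty := by
      rw [← Finset.card_pos]; omega
    have : ∑ i ∈ sq s, x i.1 < 0 := Finset.sum_neg (fun i _ => hneg i) hqne
    have h0 := hF0 s hs
    rw [hsum, hne, Finset.sum_empty] at h0
    linarith
  have hl : ∀ s ∈ F, 1 ≤ (sq s).card := by
    intro s hs
    rw [Nat.one_le_iff_ne_zero, Finset.card_ne_zero]
    by_contra hne
    rw [Finset.not_nonempty_iff_eq_empty] at hne
    have hcs := hcard s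
    rw [hne, Finset.card_empty] at hcs
    have hs1 : 0 < s.card := Finset.card_pos.2 (hFk s hs).1
    have hpne : (sp s).Nonempty := by
      rw [← Finset.card_pos]; omega
    have : 0 < ∑ i ∈ sp s, x i.1 := Finset.sum_pos (fun i _ => i.2) hpne
    have h0 := hF0 s hs
    rw [hsum, hne, Finset.sum_empty] at h0
    linarith
  let W : Finset α → ℕ := fun s =>
    (Fintype.card P).choose (sp s).card * (Fintype.card Q).choose (sq s).card
  have hTcard : ∀ s ∈ F, (Fintype.card P)! * (Fintype.card Q)! = W s * (T s).card := by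
    intro s hs
    have hT : (T s).card = ((sp s).card ! * (Fintype.card P - (sp s).card)!) *
        ((sq s).card ! * (Fintype.card Q - (sq s).card)!) := by
      simp only [T, Finset.card_product, Numbering.card_prefixed]
    have hP := Nat.choose_mul_factorial_mul_factorial (Finset.card_le_univ (sp s))
    have hQ := Nat.choose_mul_factorial_mul_factorial (Finset.card_le_univ (sq s))
    rw [hT, ← hP, ← hQ]
    simp only [W]
    ring
  -- the sum over the sets for one pair of numberings
  have hone : ∀ z : Numbering P × Numbering Q, ∑ s ∈ F.filter (fun s => z ∈ T s), W s ≤ V := by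
    rintro ⟨f, g⟩
    have hch : ∀ s ∈ F.filter (fun s => (f, g) ∈ T s), ∀ t ∈ F.filter (fun s => (f, g) ∈ T s),
        s ≠ t → ((sp s).card < (sp t).card ∧ (sq s).card < (sq t).card) ∨
          ((sp t).card < (sp s).card ∧ (sq t).card < (sq s).card) := by
      intro s hs t ht hst
      rw [Finset.mem_filter] at hs ht
      obtain ⟨hs, h1⟩ := hs
      obtain ⟨ht, h2⟩ := ht
      simp only [T, Finset.mem_product, Numbering.mem_prefixed] at h1 h2
      by_contra hcon
      have hcase : ((sp s).card ≤ (sp t).card ∧ (sq t).card ≤ (sq s).card) ∨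
          ((sp t).card ≤ (sp s).card ∧ (sq s).card ≤ (sq t).card) := by omega
      rcases hcase with ⟨ha, hb⟩ | ⟨ha, hb⟩
      · exact hst (nested s hs t ht (h1.1.subset_of_card_le_card h2.1 ha)
          (h2.2.subset_of_card_le_card h1.2 hb))
      · exact hst (nested t ht s hs (h2.1.subset_of_card_le_card h1.1 ha)
          (h1.2.subset_of_card_le_card h2.2 hb)).symm
    have hinj : Set.InjOn (fun s => ((sp s).card, (sq s).card))
        (F.filter (fun s => (f, g) ∈ T s) : Set (Finset α)) := by
      intro s hs t ht hst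
      by_contra hne
      have h3 := hch s (Finset.mem_coe.1 hs) t (Finset.mem_coe.1 ht) hne
      simp only [Prod.mk.injEq] at hst
      omega
    have heq : ∑ s ∈ F.filter (fun s => (f, g) ∈ T s), W s =
        ∑ c ∈ (F.filter (fun s => (f, g) ∈ T s)).image (fun s => ((sp s).card, (sq s).card)),
          (Fintype.card P).choose c.1 * (Fintype.card Q).choose c.2 := by
      rw [Finset.sum_image hinj]
    rw [heq]
    apply hV
    · intro c hc
      rw [Finset.mem_image] at hc
      obtain ⟨s, hs, rfl⟩ := hc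
      have hsF := (Finset.mem_filter.1 hs).1
      refine ⟨hj s hsF, hl s hsF, ?_⟩
      show (sp s).card + (sq s).card ≤ k
      rw [← hcard s]
      exact (hFk s hsF).2
    · intro c hc d hd hcd
      rw [Finset.mem_image] at hc hd
      obtain ⟨s, hs, rfl⟩ := hc
      obtain ⟨t, ht, rfl⟩ := hd
      exact hch s hs t ht (fun h => hcd (by rw [h]))
  have hfin : F.card * ((Fintype.card P)! * (Fintype.card Q)!) ≤
      V * ((Fintype.card P)! * (Fintype.card Q)!) := by
    calc F.card * ((Fintype.card P)! * (Fintype.card Q)!)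
        = ∑ s ∈ F, (Fintype.card P)! * (Fintype.card Q)! := by
          rw [Finset.sum_const, smul_eq_mul]
      _ = ∑ s ∈ F, W s * (T s).card := Finset.sum_congr rfl hTcard
      _ = ∑ s ∈ F, ∑ z : Numbering P × Numbering Q, (if z ∈ T s then W s else 0) := by
          refine Finset.sum_congr rfl fun s _ => ?_
          rw [← Finset.sum_filter, Finset.sum_const, smul_eq_mul, mul_comm]
          congr 2
          ext z
          simp
      _ = ∑ z : Numbering P × Numbering Q, ∑ s ∈ F, (if z ∈ T s then W s else 0) :=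
          Finset.sum_comm
      _ = ∑ z : Numbering P × Numbering Q, ∑ s ∈ F.filter (fun s => z ∈ T s), W s := by
          refine Finset.sum_congr rfl fun z _ => ?_
          rw [Finset.sum_filter]
      _ ≤ ∑ _z : Numbering P × Numbering Q, V := Finset.sum_le_sum fun z _ => hone z
      _ = V * ((Fintype.card P)! * (Fintype.card Q)!) := by
          rw [Finset.sum_const, smul_eq_mul, Finset.card_univ, Fintype.card_prod,
            Fintype.card_numbering, Fintype.card_numbering, mul_comm]
  exact Nat.le_of_mul_le_mul_right hfin (by positivity)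

theorem PRA : PRA_stmt := by
  classical
  intro n k V x hx hV
  have e1 : Fintype.card {i : Fin n // 0 < x i} = (univ.filter (fun i => 0 < x i)).card := Fintype.card_subtype _
  have e2 : Fintype.card {i : Fin n // ¬ 0 < x i} = (univ.filter (fun i => x i < 0)).card := by
    rw [Fintype.card_subtype]
    congr 1
    apply filter_congr
    intro i _
    constructor
    · intro h
      exact lt_of_le_of_ne (not_lt.1 h) (hx i)
    · intro h
      exact not_lt.2 h.le
  unfold zer
  refine PRA_main k V x hx _ ?_ ?_ ?_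
  · intro s hs
    have h := (mem_filter.1 hs).2
    exact ⟨h.1, h.2.1⟩
  · intro s hs
    exact (mem_filter.1 hs).2.2.2
  · intro C hC hCh
    have h := hV C hC hCh
    rw [e1, e2]
    exact h

end Pool.Agent.helper29.NM
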